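import Mathlib

/-! Region growing (Garg-Vazirani-Yannakakis) for symmetric weights on a finite pseudometric space
with natural number distances. -/

set_option autoImplicit false

open Finset

namespace Pool.H2.PP

variable {V : Type*} [DecidableEq V]

/-- ordered volume of a set -/
noncomputable def vol (D : V → V → ℕ) (c : V → V → ℝ) (U : Finset V) : ℝ :=
  ∑ i ∈ U, ∑ j ∈ U, c i j * D i j

/-- sum of the weights of crossing ordered pairs from A to B -/
noncomputable def crs (c : V → V → ℝ) (A B : Finset V) : ℝ :=
  ∑ i ∈ A, ∑ j ∈ B, c i j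

/-- the ball around v inside U -/
def bl (D : V → V → ℕ) (U : Finset V) (v : V) (R : ℕ) : Finset V :=
  U.filter (fun i => D v i ≤ R)

/-- the co-ball -/
def cb (D : V → V → ℕ) (U : Finset V) (v : V) (R : ℕ) : Finset V :=
  U.filter (fun i => ¬ D v i ≤ R)

/-- the potential as a sum over ordered pairs of U -/
noncomputable def ph (D : V → V → ℕ) (c : V → V → ℝ) (v : V) (R : ℕ) (i j : V) : ℝ :=
  if D v i ≤ R then
    (if D v j ≤ R then c i j * D i j else c i j * ((R : ℝ) + 1 - D v i))
  else
    (if D v j ≤ R then c i j * ((R : ℝ) + 1 - D v j) else 0)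

/-- indicator of a crossing pair times weight -/
noncomputable def cu (D : V → V → ℕ) (c : V → V → ℝ) (v : V) (R : ℕ) (i j : V) : ℝ :=
  if D v i ≤ R then (if D v j ≤ R then 0 else c i j)
  else (if D v j ≤ R then c i j else 0)

section
variable (D : V → V → ℕ) (c : V → V → ℝ) (hc : ∀ u v, 0 ≤ c u v)
  (hDs : ∀ u v, D u v = D v u) (hDt : ∀ u v w, D u w ≤ D u v + D v w)
include hc hDs hDt

lemma ph_step (v : V) (R : ℕ) (i j : V) :
    ph D c v R i j + cu D c v (R + 1) i j ≤ ph D c v (R + 1) i j := by
  have h1 := hDt v i j
  have h2 := hDt v j i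
  rw [hDs j i] at h2
  have hcij := hc i j
  have h1' : (D v j : ℝ) ≤ D v i + D i j := by exact_mod_cast h1
  have h2' : (D v i : ℝ) ≤ D v j + D i j := by exact_mod_cast h2
  unfold ph cu
  push_cast
  by_cases hi : D v i ≤ R
  · have hi' : D v i ≤ R + 1 := by omega
    by_cases hj : D v j ≤ R
    · have hj' : D v j ≤ R + 1 := by omega
      simp [hi, hj, hi', hj']
    · by_cases hj' : D v j ≤ R + 1
      · have e : D v j = R + 1 := by omega
        have e' : (D v j : ℝ) = R + 1 := by exact_mod_cast e
        simp only [hi, hj, hi', hj', if_true, if_false]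
        nlinarith
      · simp only [hi, hj, hi', hj', if_true, if_false]
        nlinarith
  · by_cases hi' : D v i ≤ R + 1
    · have e : D v i = R + 1 := by omega
      have e' : (D v i : ℝ) = R + 1 := by exact_mod_cast e
      by_cases hj : D v j ≤ R
      · have hj' : D v j ≤ R + 1 := by omega
        simp only [hi, hj, hi', hj', if_true, if_false]
        nlinarith
      · by_cases hj' : D v j ≤ R + 1
        · have hD : (0 : ℝ) ≤ D i j := Nat.cast_nonneg _
          simp only [hi, hj, hi', hj', if_true, if_false]
          nlinarith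
        · simp only [hi, hj, hi', hj', if_true, if_false]
          rw [e']
          nlinarith
    · by_cases hj : D v j ≤ R
      · have hj' : D v j ≤ R + 1 := by omega
        simp only [hi, hj, hi', hj', if_true, if_false]
        nlinarith
      · by_cases hj' : D v j ≤ R + 1
        · have e : D v j = R + 1 := by omega
          have e' : (D v j : ℝ) = R + 1 := by exact_mod_cast e
          simp only [hi, hj, hi', hj', if_true, if_false]
          rw [e']
          nlinarith
        · simp [hi, hj, hi', hj']

lemma ph_nonneg (v : V) (R : ℕ) (i j : V) : 0 ≤ ph D c v R i j := by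
  have hcij := hc i j
  unfold ph
  by_cases hi : D v i ≤ R
  · have hi' : (D v i : ℝ) ≤ R := by exact_mod_cast hi
    by_cases hj : D v j ≤ R
    · simp only [hi, hj, if_true]
      positivity
    · simp only [hi, hj, if_true, if_false]
      apply mul_nonneg hcij
      linarith
  · by_cases hj : D v j ≤ R
    · have hj' : (D v j : ℝ) ≤ R := by exact_mod_cast hj
      simp only [hi, hj, if_true, if_false]
      apply mul_nonneg hcij
      linarith
    · simp [hi, hj]

/-- the potential of a pair is at most its volume, and it vanishes off the ball -/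
lemma ph_le (v : V) (R : ℕ) (i j : V) :
    ph D c v R i j ≤ if ¬ D v i ≤ R ∧ ¬ D v j ≤ R then 0 else c i j * D i j := by
  have h1 := hDt v i j
  have h2 := hDt v j i
  rw [hDs j i] at h2
  have hcij := hc i j
  have h1' : (D v j : ℝ) ≤ D v i + D i j := by exact_mod_cast h1
  have h2' : (D v i : ℝ) ≤ D v j + D i j := by exact_mod_cast h2
  unfold ph
  by_cases hi : D v i ≤ R
  · by_cases hj : D v j ≤ R
    · simp [hi, hj]
    · have hj' : (R : ℝ) + 1 ≤ D v j := by exact_mod_cast (by omega : R + 1 ≤ D v j)
      simp only [hi, hj, if_true, if_false, not_true, not_false_iff, false_and, and_true]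
      apply mul_le_mul_of_nonneg_left _ hcij
      linarith
  · have hi' : (R : ℝ) + 1 ≤ D v i := by exact_mod_cast (by omega : R + 1 ≤ D v i)
    by_cases hj : D v j ≤ R
    · simp only [hi, hj, if_true, if_false, not_true, not_false_iff, true_and]
      apply mul_le_mul_of_nonneg_left _ hcij
      linarith
    · simp [hi, hj]

/-- a good radius exists -/
lemma exists_radius (U : Finset V) (v : V)
    (r : ℕ) (δ M B : ℝ) (hδ1 : δ ≤ 1)
    (hB : M + vol D c U ≤ B) (hr : (1 - δ) ^ r * B ≤ M) (hr1 : 1 ≤ r) :
    ∃ R, R ≤ r ∧ (∑ i ∈ U, ∑ j ∈ U, cu D c v R i j) ≤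
      δ * (M + ∑ i ∈ U, ∑ j ∈ U, ph D c v R i j) := by
  by_contra hcon
  push Not at hcon
  set F : ℕ → ℝ := fun R => M + ∑ i ∈ U, ∑ j ∈ U, ph D c v R i j with hF
  have hstep : ∀ R, R + 1 ≤ r → F R < (1 - δ) * F (R + 1) := by
    intro R hR
    have h := hcon (R + 1) hR
    have h2 : (∑ i ∈ U, ∑ j ∈ U, ph D c v R i j) + (∑ i ∈ U, ∑ j ∈ U, cu D c v (R + 1) i j)
        ≤ ∑ i ∈ U, ∑ j ∈ U, ph D c v (R + 1) i j := by
      rw [← Finset.sum_add_distrib]
      apply Finset.sum_le_sum
      intro i _
      rw [← Finset.sum_add_distrib]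
      apply Finset.sum_le_sum
      intro j _
      exact ph_step D c hc hDs hDt v R i j
    simp only [hF]
    linarith
  have hind : ∀ k, k + 1 ≤ r → F 0 < (1 - δ) ^ (k + 1) * F (k + 1) := by
    intro k
    induction k with
    | zero => intro h; have := hstep 0 h; simpa using this
    | succ k ih =>
      intro h
      have h1 := ih (by omega)
      have h2 := hstep (k + 1) h
      have h3 : (0 : ℝ) ≤ (1 - δ) ^ (k + 1) := by
        apply pow_nonneg; linarith
      calc F 0 < (1 - δ) ^ (k + 1) * F (k + 1) := h1
        _ ≤ (1 - δ) ^ (k + 1) * ((1 - δ) * F (k + 1 + 1)) :=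
            mul_le_mul_of_nonneg_left h2.le h3
        _ = (1 - δ) ^ (k + 1 + 1) * F (k + 1 + 1) := by ring
  obtain ⟨k, rfl⟩ : ∃ k, r = k + 1 := ⟨r - 1, by omega⟩
  have h0 := hind k le_rfl
  have hFr : F (k + 1) ≤ B := by
    refine le_trans ?_ hB
    simp only [hF, vol]
    refine add_le_add le_rfl ?_
    apply Finset.sum_le_sum
    intro i _
    apply Finset.sum_le_sum
    intro j _
    refine le_trans (ph_le D c hc hDs hDt v (k + 1) i j) ?_
    split_ifs
    · exact mul_nonneg (hc i j) (Nat.cast_nonneg _)
    · exact le_rfl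
  have hF0 : M ≤ F 0 := by
    simp only [hF]
    have : 0 ≤ ∑ i ∈ U, ∑ j ∈ U, ph D c v 0 i j :=
      Finset.sum_nonneg fun i _ => Finset.sum_nonneg fun j _ => ph_nonneg D c hc hDs hDt v 0 i j
    linarith
  have h3 : (0 : ℝ) ≤ (1 - δ) ^ (k + 1) := by
    apply pow_nonneg; linarith
  have := mul_le_mul_of_nonneg_left hFr h3
  linarith

lemma cluster_aux (hD0 : ∀ v, D v v = 0) (r : ℕ) (hr1 : 1 ≤ r)
    (δ M B : ℝ) (hδ0 : 0 ≤ δ) (hδ1 : δ ≤ 1) (hM : 0 ≤ M) (hr : (1 - δ) ^ r * B ≤ M) :
    ∀ (n : ℕ) (U : Finset V), U.card = n → M + vol D c U ≤ B →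
      ∃ cl : V → V, (∀ i ∈ U, cl i ∈ U) ∧ (∀ i ∈ U, D (cl i) i ≤ r) ∧
        ∑ i ∈ U, ∑ j ∈ U, (if cl i = cl j then 0 else c i j) ≤
          δ * (U.card * M + vol D c U) := by
  intro n
  induction n using Nat.strong_induction_on with
  | _ n ih =>
    intro U hUn hB
    rcases U.eq_empty_or_nonempty with rfl | ⟨v, hv⟩
    · refine ⟨fun i => i, by simp, by simp, ?_⟩
      simp [vol]
    · obtain ⟨R, hRr, hR⟩ := exists_radius D c hc hDs hDt U v r δ M B hδ1 hB hr hr1
      set A := U.filter (fun i => D v i ≤ R) with hA
      set C := U.filter (fun i => ¬ D v i ≤ R) with hC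
      have hvA : v ∈ A := by simp [hA, hv, hD0]
      have hcard : A.card + C.card = U.card := by
        rw [hA, hC]; exact Finset.card_filter_add_card_filter_not _
      have hApos : 1 ≤ A.card := Finset.card_pos.mpr ⟨v, hvA⟩
      have hCU : C ⊆ U := Finset.filter_subset _ _
      have hvolle : vol D c C ≤ vol D c U := by
        unfold vol
        calc ∑ i ∈ C, ∑ j ∈ C, c i j * (D i j : ℝ)
            ≤ ∑ i ∈ C, ∑ j ∈ U, c i j * (D i j : ℝ) := by
              apply Finset.sum_le_sum
              intro i _
              apply Finset.sum_le_sum_of_subset_of_nonneg hCU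
              intro j _ _
              exact mul_nonneg (hc i j) (Nat.cast_nonneg _)
          _ ≤ ∑ i ∈ U, ∑ j ∈ U, c i j * (D i j : ℝ) := by
              apply Finset.sum_le_sum_of_subset_of_nonneg hCU
              intro i _ _
              exact Finset.sum_nonneg fun j _ => mul_nonneg (hc i j) (Nat.cast_nonneg _)
      obtain ⟨cl', h1, h2, h3⟩ := ih C.card (by omega) C rfl (by linarith)
      refine ⟨fun i => if D v i ≤ R then v else cl' i, ?_, ?_, ?_⟩
      · intro i hi
        by_cases h : D v i ≤ R
        · simp [h, hv]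
        · have : i ∈ C := Finset.mem_filter.mpr ⟨hi, h⟩
          simp only [h, if_false]
          exact hCU (h1 i this)
      · intro i hi
        by_cases h : D v i ≤ R
        · simp only [h, if_true]; omega
        · have : i ∈ C := Finset.mem_filter.mpr ⟨hi, h⟩
          simp only [h, if_false]
          exact h2 i this
      · -- cost
        have hkey : ∀ i ∈ U, ∀ j ∈ U,
            (if (if D v i ≤ R then v else cl' i) = (if D v j ≤ R then v else cl' j) then (0:ℝ)
              else c i j) ≤ cu D c v R i j +
              (if (¬ D v i ≤ R) ∧ (¬ D v j ≤ R) then (if cl' i = cl' j then 0 else c i j)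
                else 0) := by
          intro i hi j hj
          unfold cu
          have hcij := hc i j
          by_cases a : D v i ≤ R
          · by_cases b : D v j ≤ R
            · simp [a, b]
            · simp only [a, b, if_true, if_false, not_true, false_and, add_zero]
              split_ifs
              · exact hcij
              · exact le_rfl
          · by_cases b : D v j ≤ R
            · simp only [a, b, if_true, if_false, not_true, and_false, add_zero]
              split_ifs
              · exact hcij
              · exact le_rfl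
            · simp [a, b]
        have hsum : ∑ i ∈ U, ∑ j ∈ U,
            (if (if D v i ≤ R then v else cl' i) = (if D v j ≤ R then v else cl' j) then (0:ℝ)
              else c i j) ≤ (∑ i ∈ U, ∑ j ∈ U, cu D c v R i j) +
              ∑ i ∈ C, ∑ j ∈ C, (if cl' i = cl' j then 0 else c i j) := by
          have e : ∑ i ∈ C, ∑ j ∈ C, (if cl' i = cl' j then 0 else c i j)
              = ∑ i ∈ U, ∑ j ∈ U, (if (¬ D v i ≤ R) ∧ (¬ D v j ≤ R) then
                (if cl' i = cl' j then 0 else c i j) else 0) := by
            rw [hC, Finset.sum_filter]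
            apply Finset.sum_congr rfl
            intro i _
            by_cases a : D v i ≤ R
            · simp [a]
            · simp only [a, not_false_iff, if_true, true_and]
              rw [Finset.sum_filter]
          rw [e, ← Finset.sum_add_distrib]
          apply Finset.sum_le_sum
          intro i hi
          rw [← Finset.sum_add_distrib]
          apply Finset.sum_le_sum
          intro j hj
          exact hkey i hi j hj
        have hph : (∑ i ∈ U, ∑ j ∈ U, ph D c v R i j) + vol D c C ≤ vol D c U := by
          have e : vol D c C = ∑ i ∈ U, ∑ j ∈ U, (if (¬ D v i ≤ R) ∧ (¬ D v j ≤ R) then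
                c i j * (D i j : ℝ) else 0) := by
            unfold vol
            rw [hC, Finset.sum_filter]
            apply Finset.sum_congr rfl
            intro i _
            by_cases a : D v i ≤ R
            · simp [a]
            · simp only [a, not_false_iff, if_true, true_and]
              rw [Finset.sum_filter]
          rw [e, ← Finset.sum_add_distrib]
          unfold vol
          apply Finset.sum_le_sum
          intro i hi
          rw [← Finset.sum_add_distrib]
          apply Finset.sum_le_sum
          intro j hj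
          have h := ph_le D c hc hDs hDt v R i j
          by_cases a : (¬ D v i ≤ R) ∧ (¬ D v j ≤ R)
          · rw [if_pos a] at h ⊢
            linarith
          · rw [if_neg a] at h ⊢
            linarith
        have hcard' : (C.card : ℝ) + 1 ≤ U.card := by
          have : C.card + 1 ≤ U.card := by omega
          exact_mod_cast this
        have h5 : (C.card : ℝ) * M + M ≤ U.card * M := by nlinarith
        have h6 : δ * ((C.card : ℝ) * M + vol D c C) + δ * (M + ∑ i ∈ U, ∑ j ∈ U, ph D c v R i j)
            ≤ δ * (U.card * M + vol D c U) := by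
          rw [← mul_add]
          apply mul_le_mul_of_nonneg_left _ hδ0
          linarith
        linarith

/-- Region growing. -/
theorem region_growing (hD0 : ∀ v, D v v = 0)
    (W : Finset V) (r : ℕ) (δ : ℝ) (hδ0 : 0 ≤ δ) (hδ1 : δ ≤ 1)
    (hδ : (1 - δ) ^ r * ((W.card : ℝ) + 1) ≤ 1) :
    ∃ cl : V → V, (∀ i ∈ W, cl i ∈ W) ∧ (∀ i ∈ W, D (cl i) i ≤ r) ∧
      ∑ i ∈ W, ∑ j ∈ W, (if cl i = cl j then 0 else c i j) ≤
        2 * δ * ∑ i ∈ W, ∑ j ∈ W, c i j * (D i j : ℝ) := by
  rcases W.eq_empty_or_nonempty with rfl | hW
  · exact ⟨fun i => i, by simp, by simp, by simp⟩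
  · have hN : (1 : ℝ) ≤ W.card := by exact_mod_cast Finset.card_pos.mpr hW
    have hr1 : 1 ≤ r := by
      by_contra h
      have : r = 0 := by omega
      rw [this, pow_zero, one_mul] at hδ
      linarith
    have hvol : 0 ≤ vol D c W := Finset.sum_nonneg fun i _ => Finset.sum_nonneg fun j _ =>
      mul_nonneg (hc i j) (Nat.cast_nonneg _)
    set M : ℝ := vol D c W / W.card with hM
    have hM0 : 0 ≤ M := by positivity
    have hNM : (W.card : ℝ) * M = vol D c W := by
      rw [hM]; field_simp
    have hr : (1 - δ) ^ r * (((W.card : ℝ) + 1) * M) ≤ M := by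
      rw [← mul_assoc]
      nlinarith
    obtain ⟨cl, h1, h2, h3⟩ := cluster_aux D c hc hDs hDt hD0 r hr1 δ M
      (((W.card : ℝ) + 1) * M) hδ0 hδ1 hM0 hr W.card W rfl (by nlinarith)
    refine ⟨cl, h1, h2, le_trans h3 ?_⟩
    rw [hNM]
    unfold vol
    linarith

end

end Pool.H2.PP
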